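import Mathlib

open MeasureTheory AddCircle Finset

namespace Pool.Agent.Helper577.Kahane

/-! ### Uniqueness of balanced ternary expansions -/

lemma ternary_zero (J : Finset ℕ) : ∀ u : ℕ → ℤ, (∀ j ∈ J, |u j| ≤ 2) →
    ∑ j ∈ J, u j * 3 ^ j = 0 → ∀ j ∈ J, u j = 0 := by
  induction J using Finset.induction_on_min with
  | empty => intro u _ _ j hj; simp at hj
  | insert a s ha ih =>
    intro u hu hsum
    have has : a ∉ s := fun h => lt_irrefl a (ha a h)
    rw [Finset.sum_insert has] at hsum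
    have h1 : (3 : ℤ) ^ (a + 1) ∣ ∑ j ∈ s, u j * 3 ^ j := by
      apply Finset.dvd_sum
      intro j hj
      exact Dvd.dvd.mul_left (pow_dvd_pow 3 (ha j hj)) _
    have h2 : (3 : ℤ) ^ (a + 1) ∣ u a * 3 ^ a := by
      have : u a * 3 ^ a = -∑ j ∈ s, u j * 3 ^ j := by linarith
      rw [this]; exact h1.neg_right
    have h3 : (3 : ℤ) ∣ u a := by
      rw [pow_succ, mul_comm ((3 : ℤ) ^ a) 3] at h2
      exact Int.dvd_of_mul_dvd_mul_right (by positivity) h2
    have h4 : u a = 0 := by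
      have := hu a (Finset.mem_insert_self a s)
      rw [abs_le] at this
      omega
    rw [h4, zero_mul, zero_add] at hsum
    intro j hj
    rcases Finset.mem_insert.1 hj with rfl | hj
    · exact h4
    · exact ih u (fun j hj => hu j (Finset.mem_insert_of_mem hj)) hsum j hj

/-- The words: digits `-1,0,1` on `J`, extended by `0`. -/
def digits : Finset ℤ := {-1, 0, 1}

lemma mem_digits {d : ℤ} : d ∈ digits ↔ d = -1 ∨ d = 0 ∨ d = 1 := by simp [digits]

lemma digits_abs {d : ℤ} (h : d ∈ digits) : |d| ≤ 1 := by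
  rcases mem_digits.1 h with rfl | rfl | rfl <;> simp

/-- words on the letters `J` -/
def words (J : Finset ℕ) : Finset (J → ℤ) := Fintype.piFinset fun _ => digits

/-- evaluation of a word -/
def ev {J : Finset ℕ} (M : ℕ) (w : J → ℤ) : ℤ := ∑ j : J, w j * 3 ^ ((j : ℕ) + M)

lemma ev_eq {J : Finset ℕ} (M : ℕ) (w : J → ℤ) :
    ev M w = 3 ^ M * ∑ j ∈ J, (if h : j ∈ J then w ⟨j, h⟩ else 0) * 3 ^ j := by
  rw [ev, Finset.mul_sum, ← Finset.sum_coe_sort J]
  apply Finset.sum_congr rfl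
  intro j _
  simp only [j.2, dif_pos, Subtype.coe_eta]
  rw [pow_add]; ring

lemma ev_zero_imp {J : Finset ℕ} (M : ℕ) (w : J → ℤ) (hw : ∀ j, |w j| ≤ 2) (h : ev M w = 0) :
    w = 0 := by
  rw [ev_eq] at h
  have h3 : (3 : ℤ) ^ M ≠ 0 := by positivity
  have h4 := (mul_eq_zero.1 h).resolve_left h3
  have h5 := ternary_zero J _ (by
    intro j hj
    simp only [hj, dif_pos]
    exact hw ⟨j, hj⟩) h4
  funext j
  have := h5 j j.2
  simpa [j.2] using this

lemma ev_sub {J : Finset ℕ} (M : ℕ) (w w' : J → ℤ) : ev M (w - w') = ev M w - ev M w' := by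
  simp only [ev, Pi.sub_apply, sub_mul, Finset.sum_sub_distrib]

lemma ev_neg {J : Finset ℕ} (M : ℕ) (w : J → ℤ) : ev M (-w) = - ev M w := by
  simp only [ev, Pi.neg_apply, neg_mul, Finset.sum_neg_distrib]

lemma mem_words {J : Finset ℕ} {w : J → ℤ} : w ∈ words J ↔ ∀ j, w j ∈ digits := by
  simp [words, Fintype.mem_piFinset]

lemma ev_injOn {J : Finset ℕ} (M : ℕ) {w w' : J → ℤ} (hw : w ∈ words J) (hw' : w' ∈ words J)
    (h : ev M w = ev M w') : w = w' := by
  have h1 : ev M (w - w') = 0 := by rw [ev_sub, h, sub_self]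
  have h2 := ev_zero_imp M (w - w') (by
    intro j
    have a1 := digits_abs (mem_words.1 hw j)
    have a2 := digits_abs (mem_words.1 hw' j)
    rw [Pi.sub_apply]
    rw [abs_le] at *
    constructor <;> linarith [a1.1, a1.2, a2.1, a2.2]) h1
  exact sub_eq_zero.1 h2

lemma neg_mem_words {J : Finset ℕ} {w : J → ℤ} (hw : w ∈ words J) : -w ∈ words J := by
  rw [mem_words] at *
  intro j
  have := hw j
  rw [mem_digits] at *
  rw [Pi.neg_apply]
  omega

lemma zero_mem_words {J : Finset ℕ} : (0 : J → ℤ) ∈ words J := by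
  rw [mem_words]; intro j; rw [mem_digits]; simp

/-- coefficient of a word -/
def cw {R : Type*} [CommRing R] {J : Finset ℕ} (α : ℕ → R) (w : J → ℤ) : R :=
  ∏ j : J, if w j = 0 then 1 else α j

/-- coefficients of the Riesz product -/
def cf {R : Type*} [CommRing R] (J : Finset ℕ) (M : ℕ) (α : ℕ → R) (n : ℤ) : R :=
  ∑ w ∈ words J, if ev M w = n then cw α w else 0

lemma cf_ev {R : Type*} [CommRing R] {J : Finset ℕ} (M : ℕ) (α : ℕ → R) {w : J → ℤ}
    (hw : w ∈ words J) : cf J M α (ev M w) = cw α w := by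
  rw [cf, Finset.sum_eq_single w]
  · simp
  · intro w' hw' hne
    rw [if_neg]
    intro h
    exact hne (ev_injOn M hw' hw h)
  · intro h; exact absurd hw h

lemma cf_ne_zero {R : Type*} [CommRing R] {J : Finset ℕ} {M : ℕ} {α : ℕ → R} {n : ℤ}
    (h : cf J M α n ≠ 0) : ∃ w ∈ words J, ev M w = n := by
  by_contra hcon
  push Not at hcon
  apply h
  rw [cf]
  apply Finset.sum_eq_zero
  intro w hw
  rw [if_neg (hcon w hw)]

lemma cw_neg {R : Type*} [CommRing R] {J : Finset ℕ} (α : ℕ → R) (w : J → ℤ) :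
    cw α (-w) = cw α w := by
  simp [cw]

lemma cf_neg {R : Type*} [CommRing R] {J : Finset ℕ} (M : ℕ) (α : ℕ → R) (n : ℤ) :
    cf J M α (-n) = cf J M α n := by
  rw [cf, cf]
  apply Finset.sum_bij (fun w _ => -w)
  · intro w hw; exact neg_mem_words hw
  · intro w _ w' _ h; exact neg_injective h
  · intro w hw; exact ⟨-w, neg_mem_words hw, neg_neg w⟩
  · intro w hw
    rw [ev_neg, cw_neg]
    congr 1
    rw [eq_iff_iff]
    constructor <;> intro h <;> linarith

lemma cf_zero {R : Type*} [CommRing R] {J : Finset ℕ} (M : ℕ) (α : ℕ → R) :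
    cf J M α 0 = 1 := by
  have h : ev M (0 : J → ℤ) = 0 := by simp [ev]
  rw [← h, cf_ev M α zero_mem_words]
  simp [cw]

/-- length of a word -/
def len {J : Finset ℕ} (w : J → ℤ) : ℕ := (univ.filter fun j : J => w j ≠ 0).card

lemma cw_eq_prod {R : Type*} [CommRing R] {J : Finset ℕ} (α : ℕ → R) (w : J → ℤ) :
    cw α w = ∏ j ∈ univ.filter (fun j : J => w j ≠ 0), α j := by
  rw [cw, Finset.prod_filter]
  apply Finset.prod_congr rfl
  intro j _
  by_cases h : w j = 0 <;> simp [h]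

lemma cw_mul_const {R : Type*} [CommRing R] {J : Finset ℕ} (c : R) (α : ℕ → R) (w : J → ℤ) :
    cw (fun j => c * α j) w = c ^ len w * cw α w := by
  rw [cw_eq_prod, cw_eq_prod, Finset.prod_mul_distrib, Finset.prod_const, len]

lemma sum_cw {R : Type*} [CommRing R] (J : Finset ℕ) (α : ℕ → R) :
    ∑ w ∈ words J, cw α w = ∏ j ∈ J, (1 + 2 * α j) := by
  rw [← Finset.prod_coe_sort J]
  have h : ∀ j : J, (1 + 2 * α j) = ∑ d ∈ digits, if d = 0 then 1 else α j := by
    intro j
    rw [digits, Finset.sum_insert (by simp), Finset.sum_insert (by simp), Finset.sum_singleton]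
    simp; ring
  simp_rw [h]
  rw [Finset.prod_univ_sum]
  rfl

end Pool.Agent.Helper577.Kahane
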