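import Pool.Agent.Helper577.Kahane.K1

open MeasureTheory AddCircle Finset

namespace Pool.Agent.Helper577.Kahane

lemma fourier_sum' {ι : Type*} (s : Finset ι) (k : ι → ℤ) (x : UnitAddCircle) :
    fourier (∑ i ∈ s, k i) x = ∏ i ∈ s, fourier (k i) x := by
  classical
  induction s using Finset.induction_on with
  | empty => simp
  | insert a s ha ih => rw [Finset.sum_insert ha, Finset.prod_insert ha, fourier_add, ih]

/-- bound for the spectrum -/
def bd (J : Finset ℕ) (M : ℕ) : ℕ := M + 1 + ∑ j ∈ J, 3 ^ (j + M)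

lemma abs_ev_le {J : Finset ℕ} (M : ℕ) {w : J → ℤ} (hw : w ∈ words J) :
    |ev M w| ≤ ((bd J M : ℕ) : ℤ) := by
  have h1 : |ev M w| ≤ ∑ j : J, (3 : ℤ) ^ ((j : ℕ) + M) := by
    rw [ev]
    refine (Finset.abs_sum_le_sum_abs _ _).trans (Finset.sum_le_sum fun j _ => ?_)
    rw [abs_mul, abs_of_pos (show (0 : ℤ) < 3 ^ ((j : ℕ) + M) by positivity)]
    have := digits_abs (mem_words.1 hw j)
    nlinarith [show (0 : ℤ) < 3 ^ ((j : ℕ) + M) by positivity]
  have h2 : ∑ j : J, (3 : ℤ) ^ ((j : ℕ) + M) = ∑ j ∈ J, (3 : ℤ) ^ (j + M) :=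
    Finset.sum_coe_sort J fun j => (3 : ℤ) ^ (j + M)
  rw [h2] at h1
  rw [bd]
  push_cast
  linarith

lemma lt_abs_ev {J : Finset ℕ} (M : ℕ) {w : J → ℤ} (hw : w ∈ words J) (h0 : ev M w ≠ 0) :
    (M : ℤ) < |ev M w| := by
  have h1 : (3 : ℤ) ^ M ∣ ev M w := by rw [ev_eq]; exact Dvd.intro _ rfl
  have h2 : (3 : ℤ) ^ M ≤ |ev M w| := by
    apply Int.le_of_dvd (abs_pos.2 h0)
    rwa [dvd_abs]
  have h3 : (M : ℤ) < 3 ^ M := by exact_mod_cast Nat.lt_pow_self (by norm_num : 1 < 3)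
  linarith

lemma cf_supp {R : Type*} [CommRing R] {J : Finset ℕ} {M : ℕ} {α : ℕ → R} {n : ℤ}
    (h : cf J M α n ≠ 0) (hn : n ≠ 0) : (M : ℤ) < |n| ∧ |n| ≤ ((bd J M : ℕ) : ℤ) := by
  obtain ⟨w, hw, rfl⟩ := cf_ne_zero h
  exact ⟨lt_abs_ev M hw hn, abs_ev_le M hw⟩

/-- trigonometric polynomial with coefficients `A` on `[-K, K]` -/
noncomputable def trig (K : ℕ) (A : ℤ → ℂ) : C(UnitAddCircle, ℂ) :=
  ∑ n ∈ Finset.Icc (-(K : ℤ)) K, A n • fourier n

lemma trig_apply (K : ℕ) (A : ℤ → ℂ) (x : UnitAddCircle) :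
    trig K A x = ∑ n ∈ Finset.Icc (-(K : ℤ)) K, A n * fourier n x := by
  simp [trig, ContinuousMap.sum_apply]

lemma trig_cf (J : Finset ℕ) (M : ℕ) (α : ℕ → ℂ) (x : UnitAddCircle) :
    trig (bd J M) (cf J M α) x =
      ∏ j ∈ J, (1 + α j * (fourier (3 ^ (j + M)) x + fourier (-3 ^ (j + M)) x)) := by
  have h1 : ∏ j ∈ J, (1 + α j * (fourier (3 ^ (j + M)) x + fourier (-3 ^ (j + M)) x)) =
      ∑ w ∈ words J, cw α w * fourier (ev M w) x := by
    rw [← Finset.prod_coe_sort J]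
    have h : ∀ j : J, (1 + α j * (fourier (3 ^ ((j : ℕ) + M)) x + fourier (-3 ^ ((j : ℕ) + M)) x)) =
        ∑ d ∈ digits, (if d = 0 then 1 else α j) * fourier (d * 3 ^ ((j : ℕ) + M)) x := by
      intro j
      rw [digits, Finset.sum_insert (by simp), Finset.sum_insert (by simp), Finset.sum_singleton]
      simp; ring
    simp_rw [h]
    rw [Finset.prod_univ_sum]
    apply Finset.sum_congr rfl
    intro w _
    rw [Finset.prod_mul_distrib, ev, fourier_sum']
    rfl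
  rw [h1, trig_apply]
  simp only [cf, Finset.sum_mul]
  rw [Finset.sum_comm]
  apply Finset.sum_congr rfl
  intro w hw
  rw [Finset.sum_eq_single (ev M w)]
  · simp
  · intro n _ hn
    rw [if_neg (fun h => hn h.symm), zero_mul]
  · intro h
    exfalso
    apply h
    rw [Finset.mem_Icc, ← abs_le]
    exact abs_ev_le M hw

lemma fourier_add_neg (n : ℤ) (x : UnitAddCircle) :
    fourier n x + fourier (-n) x = ((2 * (fourier n x).re : ℝ) : ℂ) := by
  rw [fourier_neg, Complex.add_conj]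

lemma norm_fourier_apply (n : ℤ) (x : UnitAddCircle) : ‖fourier n x‖ = 1 := by
  rw [fourier_apply]; exact Circle.norm_coe _

lemma abs_re_fourier (n : ℤ) (x : UnitAddCircle) : |(fourier n x).re| ≤ 1 :=
  (Complex.abs_re_le_norm _).trans (norm_fourier_apply n x).le

/-- The product with real coefficients of absolute value `≤ 1/2` is nonnegative. -/
lemma trig_cf_real (J : Finset ℕ) (M : ℕ) (α : ℕ → ℝ) (hα : ∀ j ∈ J, |α j| ≤ 1 / 2)
    (x : UnitAddCircle) :
    ∃ r : ℝ, 0 ≤ r ∧ trig (bd J M) (cf J M (fun j => (α j : ℂ))) x = r := by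
  refine ⟨∏ j ∈ J, (1 + α j * (2 * (fourier (3 ^ (j + M)) x).re)), ?_, ?_⟩
  · apply Finset.prod_nonneg
    intro j hj
    have h1 := hα j hj
    have h2 := abs_re_fourier (3 ^ (j + M)) x
    have h3 : |α j * (2 * (fourier (3 ^ (j + M)) x).re)| ≤ 1 := by
      rw [abs_mul, abs_mul]
      have : |(2 : ℝ)| = 2 := by norm_num
      rw [this]
      nlinarith [abs_nonneg (α j), abs_nonneg (fourier (3 ^ (j + M)) x).re]
    have := (abs_le.1 h3).1
    linarith
  · rw [trig_cf]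
    push_cast
    apply Finset.prod_congr rfl
    intro j _
    have h := fourier_add_neg (3 ^ (j + M)) x
    rw [h]
    push_cast
    ring

lemma norm_one_add_I_mul_le (y : ℝ) : ‖(1 : ℂ) + Complex.I * y‖ ≤ Real.exp (y ^ 2 / 2) := by
  have h1 : ‖(1 : ℂ) + Complex.I * y‖ ^ 2 = 1 + y ^ 2 := by
    rw [← Complex.normSq_eq_norm_sq, Complex.normSq_apply]
    simp
    ring
  have h2 : 1 + y ^ 2 ≤ Real.exp (y ^ 2 / 2) ^ 2 := by
    rw [← Real.exp_nat_mul]
    have := Real.add_one_le_exp (y ^ 2)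
    have e : ((2 : ℕ) : ℝ) * (y ^ 2 / 2) = y ^ 2 := by push_cast; ring
    rw [e]; linarith
  rw [← h1] at h2
  exact le_of_sq_le_sq h2 (Real.exp_pos _).le

/-- The product with purely imaginary coefficients is bounded. -/
lemma trig_cf_imag (J : Finset ℕ) (M : ℕ) (β : ℕ → ℝ) (x : UnitAddCircle) :
    ‖trig (bd J M) (cf J M (fun j => Complex.I * (β j : ℂ))) x‖ ≤
      Real.exp (2 * ∑ j ∈ J, β j ^ 2) := by
  rw [trig_cf, norm_prod]
  calc ∏ j ∈ J, ‖1 + Complex.I * (β j : ℂ) * (fourier (3 ^ (j + M)) x + fourier (-3 ^ (j + M)) x)‖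
      ≤ ∏ j ∈ J, Real.exp (2 * β j ^ 2) := by
        apply Finset.prod_le_prod (fun j _ => norm_nonneg _)
        intro j _
        have h := fourier_add_neg (3 ^ (j + M)) x
        rw [h]
        have e : (1 : ℂ) + Complex.I * (β j : ℂ) * ((2 * (fourier (3 ^ (j + M)) x).re : ℝ) : ℂ) =
            1 + Complex.I * ((β j * (2 * (fourier (3 ^ (j + M)) x).re) : ℝ) : ℂ) := by
          push_cast; ring
        rw [e]
        refine (norm_one_add_I_mul_le _).trans (Real.exp_le_exp.2 ?_)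
        have h2 := abs_re_fourier (3 ^ (j + M)) x
        have h3 : (fourier (3 ^ (j + M)) x).re ^ 2 ≤ 1 := by
          rw [← sq_abs]; nlinarith [abs_nonneg (fourier (3 ^ (j + M)) x).re]
        nlinarith [sq_nonneg (β j)]
    _ = Real.exp (2 * ∑ j ∈ J, β j ^ 2) := by
        rw [← Real.exp_sum, Finset.mul_sum]

end Pool.Agent.Helper577.Kahane
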