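import Pool.Agent.Helper577.Kahane.K2

open MeasureTheory AddCircle Finset

namespace Pool.Agent.Helper577.Kahane

lemma cw_map {R S : Type*} [CommRing R] [CommRing S] (f : R →+* S) {J : Finset ℕ} (α : ℕ → R)
    (w : J → ℤ) : cw (fun j => f (α j)) w = f (cw α w) := by
  rw [cw, cw, map_prod]
  apply Finset.prod_congr rfl
  intro j _
  by_cases h : w j = 0 <;> simp [h]

lemma cf_map {R S : Type*} [CommRing R] [CommRing S] (f : R →+* S) (J : Finset ℕ) (M : ℕ)
    (α : ℕ → R) (n : ℤ) : cf J M (fun j => f (α j)) n = f (cf J M α n) := by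
  rw [cf, cf, map_sum]
  apply Finset.sum_congr rfl
  intro w _
  rw [cw_map, apply_ite f, map_zero]

lemma cf_ofReal (J : Finset ℕ) (M : ℕ) (α : ℕ → ℝ) (n : ℤ) :
    cf J M (fun j => (α j : ℂ)) n = ((cf J M α n : ℝ) : ℂ) :=
  cf_map Complex.ofRealHom J M α n

lemma cf_conj (J : Finset ℕ) (M : ℕ) (β : ℕ → ℝ) (n : ℤ) :
    (starRingEnd ℂ) (cf J M (fun j => Complex.I * (β j : ℂ)) n) =
      cf J M (fun j => Complex.I * ((-β j : ℝ) : ℂ)) n := by
  rw [← cf_map (starRingEnd ℂ)]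
  congr 1
  funext j
  simp

lemma cw_I {J : Finset ℕ} (β : ℕ → ℝ) (w : J → ℤ) :
    cw (fun j => Complex.I * (β j : ℂ)) w = Complex.I ^ len w * ((cw β w : ℝ) : ℂ) := by
  rw [cw_mul_const]
  congr 1
  exact cw_map Complex.ofRealHom β w

lemma even_im {r : ℝ} {n : ℕ} (h : (Complex.I ^ n * (r : ℂ)).im ≠ 0) : Odd n := by
  by_contra hn
  rw [Nat.not_odd_iff_even] at hn
  obtain ⟨k, rfl⟩ := hn
  apply h
  rw [← two_mul, pow_mul, Complex.I_sq]
  have : ((-1 : ℂ) ^ k * (r : ℂ)) = (((-1) ^ k * r : ℝ) : ℂ) := by push_cast; ring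
  rw [this, Complex.ofReal_im]

lemma abs_im_le {r : ℝ} {n : ℕ} : |(Complex.I ^ n * (r : ℂ)).im| ≤ |r| := by
  refine (Complex.abs_im_le_norm _).trans ?_
  rw [norm_mul, norm_pow, Complex.norm_I, one_pow, one_mul, Complex.norm_real, Real.norm_eq_abs]

/-- the letter word -/
def lw {J : Finset ℕ} (j : J) : J → ℤ := Pi.single j 1

lemma lw_mem {J : Finset ℕ} (j : J) : lw j ∈ words J := by
  rw [mem_words]; intro i; rw [mem_digits, lw]
  by_cases h : i = j
  · subst h; simp
  · simp [h]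

lemma ev_lw {J : Finset ℕ} (M : ℕ) (j : J) : ev M (lw j) = 3 ^ ((j : ℕ) + M) := by
  rw [ev, Finset.sum_eq_single j]
  · simp [lw]
  · intro i _ hi; simp [lw, hi]
  · intro h; simp at h

lemma cw_lw {R : Type*} [CommRing R] {J : Finset ℕ} (α : ℕ → R) (j : J) : cw α (lw j) = α j := by
  rw [cw, Finset.prod_eq_single j]
  · simp [lw]
  · intro i _ hi; simp [lw, hi]
  · intro h; simp at h

lemma cf_letter {R : Type*} [CommRing R] {J : Finset ℕ} (M : ℕ) (α : ℕ → R) {j : ℕ} (hj : j ∈ J) :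
    cf J M α (3 ^ (j + M)) = α j := by
  have h := ev_lw (J := J) M ⟨j, hj⟩
  simp only at h
  rw [← h, cf_ev M α (lw_mem _), cw_lw]

/-- A word of length one with positive value is a letter. -/
lemma len_one {J : Finset ℕ} {M : ℕ} {w : J → ℤ} (hw : w ∈ words J) (h : len w = 1)
    (hpos : 0 < ev M w) : ∃ j ∈ J, ev M w = 3 ^ (j + M) := by
  rw [len, Finset.card_eq_one] at h
  obtain ⟨j, hj⟩ := h
  have h1 : w j ≠ 0 := by
    have : j ∈ univ.filter (fun j : J => w j ≠ 0) := by rw [hj]; simp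
    simpa using this
  have h2 : ∀ i, i ≠ j → w i = 0 := by
    intro i hi
    by_contra hcon
    have : i ∈ univ.filter (fun j : J => w j ≠ 0) := by simpa using hcon
    rw [hj] at this
    exact hi (by simpa using this)
  have h3 : ev M w = w j * 3 ^ ((j : ℕ) + M) := by
    rw [ev, Finset.sum_eq_single j]
    · intro i _ hi; rw [h2 i hi, zero_mul]
    · intro h; simp at h
  have h4 : w j = 1 := by
    have := mem_words.1 hw j
    rw [mem_digits] at this
    rcases this with h | h | h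
    · exfalso
      rw [h3, h] at hpos
      have : (0 : ℤ) < 3 ^ ((j : ℕ) + M) := by positivity
      linarith
    · exact absurd h h1
    · exact h
  exact ⟨j, j.2, by rw [h3, h4, one_mul]⟩

lemma len_zero {J : Finset ℕ} {w : J → ℤ} (h : len w = 0) : w = 0 := by
  rw [len, Finset.card_eq_zero, Finset.filter_eq_empty_iff] at h
  funext j
  have := h (Finset.mem_univ j)
  simpa using this

lemma abs_cw_le {J : Finset ℕ} {α : ℕ → ℝ} (hα : ∀ j ∈ J, |α j| ≤ 1 / 2) (w : J → ℤ) :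
    |cw α w| ≤ (1 / 2) ^ len w := by
  rw [cw_eq_prod, Finset.abs_prod, len, ← Finset.prod_const]
  apply Finset.prod_le_prod (fun _ _ => abs_nonneg _)
  intro j _
  exact hα j j.2

lemma cw_sq {J : Finset ℕ} (β : ℕ → ℝ) (w : J → ℤ) :
    cw (fun j => β j ^ 2) w = cw β w ^ 2 := by
  rw [cw_eq_prod, cw_eq_prod, Finset.prod_pow]

lemma cw_nonneg {J : Finset ℕ} {γ : ℕ → ℝ} (hγ : ∀ j, 0 ≤ γ j) (w : J → ℤ) : 0 ≤ cw γ w := by
  rw [cw_eq_prod]; exact Finset.prod_nonneg fun j _ => hγ j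

lemma sum_cf_le {J : Finset ℕ} (M : ℕ) {γ : ℕ → ℝ} (hγ : ∀ j, 0 ≤ γ j) (S : Finset ℕ) :
    ∑ n ∈ S, cf J M γ (n : ℤ) ≤ ∏ j ∈ J, (1 + 2 * γ j) := by
  rw [← sum_cw]
  simp only [cf]
  rw [Finset.sum_comm]
  apply Finset.sum_le_sum
  intro w _
  by_cases h : ∃ n ∈ S, ev M w = (n : ℤ)
  · obtain ⟨n, hn, h⟩ := h
    rw [Finset.sum_eq_single_of_mem n hn]
    · rw [if_pos h]
    · intro m _ hm
      rw [if_neg]
      intro h'
      rw [h] at h'
      exact hm (by exact_mod_cast h'.symm)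
  · push Not at h
    rw [Finset.sum_eq_zero]
    · exact cw_nonneg hγ w
    · intro n hn
      rw [if_neg (h n hn)]

/-! ### Integrals -/

lemma integral_fourier (n : ℤ) :
    ∫ x : UnitAddCircle, fourier n x ∂haarAddCircle = if n = 0 then 1 else 0 := by
  have h := congrFun (fourierCoeff_fourier (T := 1) n) 0
  rw [fourierCoeff] at h
  simp only [neg_zero, fourier_zero, one_smul] at h
  rw [h]
  by_cases hn : n = 0
  · subst hn; simp
  · rw [if_neg hn, Pi.single_eq_of_ne (Ne.symm hn)]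

lemma integral_trig (K : ℕ) (A : ℤ → ℂ) :
    ∫ x : UnitAddCircle, trig K A x ∂haarAddCircle = A 0 := by
  simp only [trig_apply]
  rw [integral_finsetSum]
  · simp only [integral_const_mul, integral_fourier]
    rw [Finset.sum_eq_single 0]
    · simp
    · intro n _ hn; simp [hn]
    · intro h; exfalso; apply h; simp
  · intro n _
    exact ((fourier n).continuous.const_smul (A n)).integrable_of_hasCompactSupport
      (HasCompactSupport.of_compactSpace _)

end Pool.Agent.Helper577.Kahane
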