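import Pool.Agent.Helper577.Kahane.K3

open MeasureTheory AddCircle Finset

namespace Pool.Agent.Helper577.Kahane

lemma trig_add (K : ℕ) (A B : ℤ → ℂ) : trig K (fun n => A n + B n) = trig K A + trig K B := by
  ext x
  rw [ContinuousMap.add_apply, trig_apply, trig_apply, trig_apply, ← Finset.sum_add_distrib]
  exact Finset.sum_congr rfl fun n _ => add_mul _ _ _

lemma trig_sub (K : ℕ) (A B : ℤ → ℂ) : trig K (fun n => A n - B n) = trig K A - trig K B := by
  ext x
  rw [ContinuousMap.sub_apply, trig_apply, trig_apply, trig_apply, ← Finset.sum_sub_distrib]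
  exact Finset.sum_congr rfl fun n _ => sub_mul _ _ _

lemma trig_mul (K : ℕ) (c : ℂ) (A : ℤ → ℂ) : trig K (fun n => c * A n) = c • trig K A := by
  ext x
  rw [ContinuousMap.smul_apply, trig_apply, trig_apply, smul_eq_mul, Finset.mul_sum]
  exact Finset.sum_congr rfl fun n _ => mul_assoc _ _ _

lemma trig_single (K : ℕ) : trig K (fun n => if n = 0 then 1 else 0) = 1 := by
  ext x
  rw [trig_apply, Finset.sum_eq_single 0]
  · simp
  · intro n _ hn; simp [hn]
  · intro h; exfalso; apply h; simp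

lemma integrable_trig (K : ℕ) (A : ℤ → ℂ) :
    Integrable (fun x : UnitAddCircle => trig K A x) haarAddCircle :=
  (trig K A).continuous.integrable_of_hasCompactSupport (HasCompactSupport.of_compactSpace _)

/-- The data produced at one step from the letters `J` with coefficients `a, b`. -/
structure Step (J : Finset ℕ) (a b : ℕ → ℝ) (η : ℝ) (M : ℕ) (A B : ℤ → ℝ) (M' : ℕ) : Prop where
  lt : M < M'
  suppA : ∀ n, A n ≠ 0 → (M : ℤ) < |n| ∧ |n| ≤ (M' : ℤ)
  suppB : ∀ n, B n ≠ 0 → (M : ℤ) < |n| ∧ |n| ≤ (M' : ℤ)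
  evenA : ∀ n, A (-n) = A n
  evenB : ∀ n, B (-n) = B n
  letA : ∀ j ∈ J, A (3 ^ (j + M)) = a j
  letB : ∀ j ∈ J, B (3 ^ (j + M)) = -b j
  letM : ∀ j ∈ J, 3 ^ (j + M) ≤ M'
  normA : ∫ x : UnitAddCircle, ‖trig M' (fun n => (A n : ℂ)) x‖ ∂haarAddCircle ≤ 2 * η
  normB : ∀ x, ‖trig M' (fun n => (B n : ℂ)) x‖ ≤ 2 * η
  newA : ∀ n ∈ (Finset.Ioc M M').filter (fun n : ℕ => B (n : ℤ) ≠ 0 ∧ ∀ j ∈ J, n ≠ 3 ^ (j + M)),
    |A (n : ℤ)| ≤ η / 4
  newB : ∑ n ∈ (Finset.Ioc M M').filter (fun n : ℕ => B (n : ℤ) ≠ 0 ∧ ∀ j ∈ J, n ≠ 3 ^ (j + M)),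
    B (n : ℤ) ^ 2 ≤ η ^ 2 / 40

lemma exists_step (J : Finset ℕ) (a b : ℕ → ℝ) {η : ℝ} (hη : 0 < η)
    (ha : ∀ j ∈ J, |a j| ≤ η / 2) (hb : ∑ j ∈ J, b j ^ 2 ≤ η ^ 2 / 10) (M : ℕ) :
    ∃ A B M', Step J a b η M A B M' := by
  set α : ℕ → ℝ := fun j => a j / η with hα
  set β : ℕ → ℝ := fun j => -b j / η with hβ
  have hη0 : η ≠ 0 := hη.ne'
  have hα1 : ∀ j ∈ J, |α j| ≤ 1 / 2 := by
    intro j hj
    rw [hα]
    simp only [abs_div, abs_of_pos hη]
    rw [div_le_iff₀ hη]
    have := ha j hj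
    linarith
  have hβ1 : ∑ j ∈ J, β j ^ 2 ≤ 1 / 10 := by
    have : ∑ j ∈ J, β j ^ 2 = (∑ j ∈ J, b j ^ 2) / η ^ 2 := by
      rw [Finset.sum_div]
      apply Finset.sum_congr rfl
      intro j _
      rw [hβ]; simp only; rw [div_pow, neg_sq]
    rw [this, div_le_iff₀ (by positivity)]
    linarith
  set A : ℤ → ℝ := fun n => η * (cf J M α n - if n = 0 then 1 else 0) with hA
  set B : ℤ → ℝ := fun n => η * (cf J M (fun j => Complex.I * (β j : ℂ)) n).im with hB
  have hA0 : A 0 = 0 := by simp [hA, cf_zero]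
  have hB0 : B 0 = 0 := by simp [hB, cf_zero]
  have hAn : ∀ n, n ≠ 0 → A n = η * cf J M α n := by intro n hn; simp [hA, hn]
  have hpos3 : ∀ j : ℕ, (3 : ℤ) ^ (j + M) ≠ 0 := fun j => by positivity
  have hexp : Real.exp (2 * ∑ j ∈ J, β j ^ 2) ≤ 2 := by
    calc Real.exp (2 * ∑ j ∈ J, β j ^ 2) ≤ Real.exp (1 / 2) := by
          apply Real.exp_le_exp.2; linarith
      _ ≤ 2 := by
          have h1 : Real.exp (1 / 2) ^ 2 = Real.exp 1 := by
            rw [← Real.exp_nat_mul]; norm_num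
          have h2 := Real.exp_one_lt_d9
          have h3 : Real.exp (1 / 2) ^ 2 ≤ 2 ^ 2 := by rw [h1]; linarith
          exact le_of_sq_le_sq h3 (by norm_num)
  -- description of new letters
  have hnew : ∀ n : ℕ, M < n → B (n : ℤ) ≠ 0 → (∀ j ∈ J, n ≠ 3 ^ (j + M)) →
      ∃ w ∈ words J, ev M w = (n : ℤ) ∧ 3 ≤ len w := by
    intro n hn hBn hj
    have h1 : cf J M (fun j => Complex.I * (β j : ℂ)) n ≠ 0 := by
      intro h; apply hBn; simp [hB, h]
    obtain ⟨w, hw, hwn⟩ := cf_ne_zero h1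
    refine ⟨w, hw, hwn, ?_⟩
    have h2 : (Complex.I ^ len w * ((cw β w : ℝ) : ℂ)).im ≠ 0 := by
      intro h; apply hBn
      simp only [hB]
      rw [← hwn, cf_ev M _ hw, cw_I, h, mul_zero]
    have h3 := even_im h2
    have h4 : len w ≠ 1 := by
      intro h
      obtain ⟨j, hjJ, hj'⟩ := len_one hw h (M := M) (by rw [hwn]; omega)
      apply hj j hjJ
      rw [hwn] at hj'
      exact_mod_cast hj'
    obtain ⟨k, hk⟩ := h3
    omega
  refine ⟨A, B, bd J M, ?_⟩
  constructor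
  · rw [bd]; omega
  · intro n hn
    by_cases h0 : n = 0
    · exact absurd (h0 ▸ hA0) hn
    · rw [hAn n h0] at hn
      exact cf_supp (right_ne_zero_of_mul hn) h0
  · intro n hn
    by_cases h0 : n = 0
    · exact absurd (h0 ▸ hB0) hn
    · refine cf_supp (α := fun j => Complex.I * (β j : ℂ)) (fun h => hn ?_) h0
      simp [hB, h]
  · intro n
    simp only [hA, cf_neg, neg_eq_zero]
  · intro n
    simp only [hB, cf_neg]
  · intro j hj
    rw [hAn _ (hpos3 j), cf_letter M α hj]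
    simp only [hα]
    field_simp
  · intro j hj
    simp only [hB]
    rw [cf_letter M _ hj]
    simp only [hβ]
    simp
    field_simp
  · intro j hj
    rw [bd]
    have : 3 ^ (j + M) ≤ ∑ j ∈ J, 3 ^ (j + M) :=
      Finset.single_le_sum (f := fun j : ℕ => 3 ^ (j + M)) (fun _ _ => Nat.zero_le _) hj
    omega
  · have h1 : ∀ x, trig (bd J M) (fun n => (A n : ℂ)) x =
        η * (trig (bd J M) (cf J M (fun j => (α j : ℂ))) x - 1) := by
      intro x
      have e : (fun n => (A n : ℂ)) = fun n => (η : ℂ) * (cf J M (fun j => (α j : ℂ)) n -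
          if n = 0 then 1 else 0) := by
        funext n
        simp only [hA]
        rw [cf_ofReal]
        push_cast
        by_cases hn : n = 0 <;> simp [hn]
      rw [e, trig_mul, trig_sub, trig_single]
      simp
    have h2 : ∀ x, ‖trig (bd J M) (fun n => (A n : ℂ)) x‖ ≤
        η * ((trig (bd J M) (cf J M (fun j => (α j : ℂ))) x).re + 1) := by
      intro x
      obtain ⟨r, hr, hrx⟩ := trig_cf_real J M α hα1 x
      rw [h1, hrx, Complex.ofReal_re, norm_mul, Complex.norm_real, Real.norm_eq_abs, abs_of_pos hη]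
      gcongr
      calc ‖(r : ℂ) - 1‖ ≤ ‖(r : ℂ)‖ + ‖(1 : ℂ)‖ := norm_sub_le _ _
        _ = r + 1 := by rw [Complex.norm_real, Real.norm_eq_abs, abs_of_nonneg hr, norm_one]
    have h3 : ∫ x : UnitAddCircle, (trig (bd J M) (cf J M (fun j => (α j : ℂ))) x).re
        ∂haarAddCircle = 1 := by
      have h4 := integral_re (𝕜 := ℂ) (integrable_trig (bd J M) (cf J M (fun j => (α j : ℂ))))
      rw [integral_trig, cf_zero] at h4
      simpa using h4
    have hint : Integrable (fun x : UnitAddCircle =>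
        (trig (bd J M) (cf J M (fun j => (α j : ℂ))) x).re) haarAddCircle :=
      (integrable_trig (bd J M) (cf J M (fun j => (α j : ℂ)))).re
    calc ∫ x : UnitAddCircle, ‖trig (bd J M) (fun n => (A n : ℂ)) x‖ ∂haarAddCircle
        ≤ ∫ x : UnitAddCircle, η * ((trig (bd J M) (cf J M (fun j => (α j : ℂ))) x).re + 1)
            ∂haarAddCircle := by
          apply integral_mono (integrable_trig _ _).norm _ h2
          exact (hint.add (integrable_const 1)).const_mul η
      _ = 2 * η := by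
          rw [integral_const_mul, integral_add hint (integrable_const 1), h3]
          simp
          ring
  · intro x
    have e : (fun n => (B n : ℂ)) = fun n => ((η : ℂ) / (2 * Complex.I)) *
        (cf J M (fun j => Complex.I * (β j : ℂ)) n -
          cf J M (fun j => Complex.I * ((-β j : ℝ) : ℂ)) n) := by
      funext n
      simp only [hB]
      rw [← cf_conj, Complex.ofReal_mul]
      have h5 := Complex.sub_conj (cf J M (fun j => Complex.I * (β j : ℂ)) n)
      rw [h5]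
      push_cast
      field_simp
    rw [e, trig_mul, trig_sub]
    simp only [ContinuousMap.smul_apply, ContinuousMap.sub_apply, smul_eq_mul]
    have h6 := trig_cf_imag J M β x
    have h7 := trig_cf_imag J M (fun j => -β j) x
    simp only [neg_sq] at h7
    rw [norm_mul, norm_div, norm_mul, Complex.norm_I, Complex.norm_real, Real.norm_eq_abs,
      abs_of_pos hη]
    have h8 := norm_sub_le (trig (bd J M) (cf J M (fun j => Complex.I * (β j : ℂ))) x)
      (trig (bd J M) (cf J M (fun j => Complex.I * ((-β j : ℝ) : ℂ))) x)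
    have h9 : ‖trig (bd J M) (cf J M (fun j => Complex.I * (β j : ℂ))) x -
      trig (bd J M) (cf J M (fun j => Complex.I * ((-β j : ℝ) : ℂ))) x‖ ≤ 4 := by linarith
    have h10 : ‖(2 : ℂ)‖ = 2 := by norm_num
    rw [h10]
    calc η / (2 * 1) * _ ≤ η / (2 * 1) * 4 := by gcongr
      _ = 2 * η := by ring
  · intro n hn
    rw [Finset.mem_filter, Finset.mem_Ioc] at hn
    obtain ⟨w, hw, hwn, hlen⟩ := hnew n hn.1.1 hn.2.1 hn.2.2
    have hn0 : (n : ℤ) ≠ 0 := by have := hn.1.1; omega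
    rw [hAn _ hn0, ← hwn, cf_ev M _ hw, abs_mul, abs_of_pos hη]
    have h1 := abs_cw_le hα1 w
    have h2 : ((1 : ℝ) / 2) ^ len w ≤ (1 / 2) ^ 3 :=
      pow_le_pow_of_le_one (by norm_num) (by norm_num) hlen
    calc η * |cw α w| ≤ η * (1 / 2) ^ 3 := by gcongr; linarith
      _ ≤ η / 4 := by linarith
  · have h1 : ∀ n ∈ (Finset.Ioc M (bd J M)).filter
        (fun n : ℕ => B (n : ℤ) ≠ 0 ∧ ∀ j ∈ J, n ≠ 3 ^ (j + M)),
        B (n : ℤ) ^ 2 ≤ η ^ 2 / 125 * cf J M (fun j => 5 * β j ^ 2) (n : ℤ) := by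
      intro n hn
      rw [Finset.mem_filter, Finset.mem_Ioc] at hn
      obtain ⟨w, hw, hwn, hlen⟩ := hnew n hn.1.1 hn.2.1 hn.2.2
      rw [← hwn, cf_ev M _ hw, cw_mul_const, cw_sq]
      simp only [hB]
      rw [cf_ev M _ hw, cw_I]
      have h2 := @abs_im_le (cw β w) (len w)
      have h3 : ((Complex.I ^ len w * ((cw β w : ℝ) : ℂ)).im) ^ 2 ≤ (cw β w) ^ 2 := sq_le_sq.2 h2
      have h4 : (5 : ℝ) ^ 3 ≤ 5 ^ len w := pow_le_pow_right₀ (by norm_num) hlen
      calc (η * (Complex.I ^ len w * ((cw β w : ℝ) : ℂ)).im) ^ 2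
          = η ^ 2 * ((Complex.I ^ len w * ((cw β w : ℝ) : ℂ)).im) ^ 2 := by ring
        _ ≤ η ^ 2 * (cw β w) ^ 2 := by gcongr
        _ = η ^ 2 / 125 * (5 ^ 3 * cw β w ^ 2) := by ring
        _ ≤ η ^ 2 / 125 * (5 ^ len w * cw β w ^ 2) := by gcongr
    refine (Finset.sum_le_sum h1).trans ?_
    rw [← Finset.mul_sum]
    have h2 := sum_cf_le (J := J) M (γ := fun j => 5 * β j ^ 2) (fun j => by positivity)
      ((Finset.Ioc M (bd J M)).filter (fun n : ℕ => B (n : ℤ) ≠ 0 ∧ ∀ j ∈ J, n ≠ 3 ^ (j + M)))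
    have h3 : ∏ j ∈ J, (1 + 2 * (5 * β j ^ 2)) ≤ Real.exp 1 := by
      calc ∏ j ∈ J, (1 + 2 * (5 * β j ^ 2)) ≤ ∏ j ∈ J, Real.exp (10 * β j ^ 2) := by
            apply Finset.prod_le_prod (fun j _ => by positivity)
            intro j _
            have := Real.add_one_le_exp (10 * β j ^ 2)
            linarith
        _ = Real.exp (10 * ∑ j ∈ J, β j ^ 2) := by rw [← Real.exp_sum, Finset.mul_sum]
        _ ≤ Real.exp 1 := Real.exp_le_exp.2 (by linarith)
    have h4 := Real.exp_one_lt_d9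
    calc η ^ 2 / 125 * _ ≤ η ^ 2 / 125 * 3 := by
          gcongr
          linarith
      _ ≤ η ^ 2 / 40 := by nlinarith [sq_nonneg η]

end Pool.Agent.Helper577.Kahane
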