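import Pool.Agent.Helper577.Kahane.K4

open MeasureTheory AddCircle Finset

namespace Pool.Agent.Helper577.Kahane

/-- state of the recursion -/
structure St where
  η : ℝ
  hη : 0 < η
  J : Finset ℕ
  a : ℕ → ℝ
  b : ℕ → ℝ
  M : ℕ
  ha : ∀ j ∈ J, |a j| ≤ η / 2
  hb : ∑ j ∈ J, b j ^ 2 ≤ η ^ 2 / 10

namespace St

lemma ex (s : St) : ∃ A B M', Step s.J s.a s.b s.η s.M A B M' :=
  exists_step s.J s.a s.b s.hη s.ha s.hb s.M

noncomputable def A (s : St) : ℤ → ℝ := s.ex.choose
noncomputable def B (s : St) : ℤ → ℝ := s.ex.choose_spec.choose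
noncomputable def M' (s : St) : ℕ := s.ex.choose_spec.choose_spec.choose
lemma step (s : St) : Step s.J s.a s.b s.η s.M s.A s.B s.M' :=
  s.ex.choose_spec.choose_spec.choose_spec

noncomputable def next (s : St) : St where
  η := s.η / 2
  hη := by have := s.hη; positivity
  J := (Finset.Ioc s.M s.M').filter (fun n : ℕ => s.B (n : ℤ) ≠ 0 ∧ ∀ j ∈ s.J, n ≠ 3 ^ (j + s.M))
  a := fun n => s.A n
  b := fun n => s.B n
  M := s.M'
  ha := by
    intro j hj
    have := s.step.newA j hj
    linarith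
  hb := by
    have := s.step.newB
    refine this.trans (le_of_eq ?_)
    ring

/-- the initial state -/
noncomputable def init : St where
  η := 1
  hη := one_pos
  J := Finset.Icc 1 1024
  a := fun _ => 1 / 2
  b := fun _ => 1 / 128
  M := 1024
  ha := by intro j _; norm_num
  hb := by simp; norm_num

noncomputable def seq : ℕ → St
  | 0 => init
  | k + 1 => (seq k).next

lemma seq_succ (k : ℕ) : seq (k + 1) = (seq k).next := rfl

lemma seq_η (k : ℕ) : (seq k).η = (1 / 2) ^ k := by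
  induction k with
  | zero => simp [seq, init]
  | succ k ih =>
    have h : (seq (k + 1)).η = (seq k).η / 2 := rfl
    rw [h, ih]; ring

end St

open St

/-- The full set of data. -/
structure Data where
  A : ℕ → ℤ → ℝ
  B : ℕ → ℤ → ℝ
  J : ℕ → Finset ℕ
  Lo : ℕ → ℕ
  Lo_zero : Lo 0 = 0
  Lo_lt : ∀ k, Lo k < Lo (k + 1)
  suppA : ∀ k n, A k n ≠ 0 → (Lo k : ℤ) < |n| ∧ |n| ≤ (Lo (k + 1) : ℤ)
  suppB : ∀ k n, B k n ≠ 0 → (Lo k : ℤ) < |n| ∧ |n| ≤ (Lo (k + 1) : ℤ)
  evenA : ∀ k n, A k (-n) = A k n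
  evenB : ∀ k n, B k (-n) = B k n
  J_mem : ∀ k, ∀ j ∈ J k, Lo k < j ∧ j ≤ Lo (k + 1)
  letA : ∀ k, ∀ j ∈ J k, A (k + 1) (3 ^ (j + Lo (k + 1))) = A k j
  letB : ∀ k, ∀ j ∈ J k, B (k + 1) (3 ^ (j + Lo (k + 1))) = - B k j
  letM : ∀ k, ∀ j ∈ J k, 3 ^ (j + Lo (k + 1)) ≤ Lo (k + 2)
  disj : ∀ k, ∀ n ∈ J (k + 1), ∀ j ∈ J k, n ≠ 3 ^ (j + Lo (k + 1))
  cover0 : ∀ n : ℕ, Lo 0 < n → n ≤ Lo 1 → n ∈ J 0
  cover : ∀ k, ∀ n : ℕ, Lo (k + 1) < n → n ≤ Lo (k + 2) → B (k + 1) n ≠ 0 →
    n ∈ J (k + 1) ∨ ∃ j ∈ J k, n = 3 ^ (j + Lo (k + 1))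
  normA : ∀ k, ∫ x : UnitAddCircle, ‖trig (Lo (k + 2)) (fun n => (A (k + 1) n : ℂ)) x‖
    ∂haarAddCircle ≤ 2 * (1 / 2) ^ k
  normB : ∀ k x, ‖trig (Lo (k + 2)) (fun n => (B (k + 1) n : ℂ)) x‖ ≤ 2 * (1 / 2) ^ k
  init_sum : ∑ n ∈ Finset.Icc (-(Lo 1 : ℤ)) (Lo 1), A 0 n * B 0 n = 8

noncomputable def data : Data where
  A := fun k => match k with
    | 0 => fun n => if 0 < |n| ∧ |n| ≤ 1024 then 1 / 2 else 0
    | k + 1 => (seq k).A
  B := fun k => match k with
    | 0 => fun n => if 0 < |n| ∧ |n| ≤ 1024 then 1 / 128 else 0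
    | k + 1 => (seq k).B
  J := fun k => (seq k).J
  Lo := fun k => match k with
    | 0 => 0
    | k + 1 => (seq k).M
  Lo_zero := rfl
  Lo_lt := by
    intro k
    match k with
    | 0 => simp [seq, init]
    | k + 1 => exact (seq k).step.lt
  suppA := by
    intro k n h
    match k with
    | 0 =>
      simp only [ne_eq, ite_eq_right_iff, Classical.not_imp] at h
      simpa [seq, init] using h.1
    | k + 1 => exact (seq k).step.suppA n h
  suppB := by
    intro k n h
    match k with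
    | 0 =>
      simp only [ne_eq, ite_eq_right_iff, Classical.not_imp] at h
      simpa [seq, init] using h.1
    | k + 1 => exact (seq k).step.suppB n h
  evenA := by
    intro k n
    match k with
    | 0 => simp only [abs_neg]
    | k + 1 => exact (seq k).step.evenA n
  evenB := by
    intro k n
    match k with
    | 0 => simp only [abs_neg]
    | k + 1 => exact (seq k).step.evenB n
  J_mem := by
    intro k j hj
    match k with
    | 0 => simpa [seq, init, Nat.one_le_iff_ne_zero, Nat.pos_iff_ne_zero] using hj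
    | k + 1 =>
      have := (Finset.mem_filter.1 hj).1
      rw [Finset.mem_Ioc] at this
      exact this
  letA := by
    intro k j hj
    match k with
    | 0 =>
      have h := (seq 0).step.letA j hj
      have hj' : 0 < |(j : ℤ)| ∧ |(j : ℤ)| ≤ 1024 := by
        have : 1 ≤ j ∧ j ≤ 1024 := by simpa [seq, init] using hj
        rw [Nat.abs_cast]; omega
      refine Eq.trans h (Eq.trans ?_ (if_pos hj').symm)
      rfl
    | k + 1 => exact (seq (k + 1)).step.letA j hj
  letB := by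
    intro k j hj
    match k with
    | 0 =>
      have h := (seq 0).step.letB j hj
      have hj' : 0 < |(j : ℤ)| ∧ |(j : ℤ)| ≤ 1024 := by
        have : 1 ≤ j ∧ j ≤ 1024 := by simpa [seq, init] using hj
        rw [Nat.abs_cast]; omega
      refine Eq.trans h (congrArg Neg.neg (Eq.trans ?_ (if_pos hj').symm))
      rfl
    | k + 1 => exact (seq (k + 1)).step.letB j hj
  letM := by
    intro k j hj
    exact (seq k).step.letM j hj
  disj := by
    intro k n hn j hj
    exact (Finset.mem_filter.1 hn).2.2 j hj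
  cover0 := by
    intro n h0 h1
    simp only [seq, init] at h1 ⊢
    rw [Finset.mem_Icc]
    omega
  cover := by
    intro k n h0 h1 hB
    by_cases h : ∀ j ∈ (seq k).J, n ≠ 3 ^ (j + (seq k).M)
    · left
      exact Finset.mem_filter.2 ⟨Finset.mem_Ioc.2 ⟨h0, h1⟩, hB, h⟩
    · right
      push Not at h
      exact h
  normA := by
    intro k
    have := (seq k).step.normA
    rw [seq_η] at this
    exact this
  normB := by
    intro k x
    have := (seq k).step.normB x
    rw [seq_η] at this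
    exact this
  init_sum := by
    simp only [seq, init]
    have h : ∀ n ∈ Finset.Icc (-((1024 : ℕ) : ℤ)) ((1024 : ℕ) : ℤ),
        ((if 0 < |n| ∧ |n| ≤ 1024 then (1 : ℝ) / 2 else 0) *
          (if 0 < |n| ∧ |n| ≤ 1024 then (1 : ℝ) / 128 else 0)) =
        (1 / 256 : ℝ) - if n = 0 then 1 / 256 else 0 := by
      intro n hn
      rw [Finset.mem_Icc, ← abs_le] at hn
      by_cases h0 : n = 0
      · subst h0; simp
      · have : 0 < |n| ∧ |n| ≤ 1024 := ⟨abs_pos.2 h0, by exact_mod_cast hn⟩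
        rw [if_pos this, if_pos this, if_neg h0]
        norm_num
    rw [Finset.sum_congr rfl h, Finset.sum_sub_distrib, Finset.sum_ite_eq']
    simp
    norm_num

end Pool.Agent.Helper577.Kahane
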