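import Pool.Agent.Helper577.Kahane.K5

open MeasureTheory AddCircle Finset

namespace Pool.Agent.Helper577.Kahane

namespace Data

variable (D : Data)

lemma Lo_strictMono : StrictMono D.Lo := strictMono_nat_of_lt_succ D.Lo_lt

lemma block_unique {k l m : ℕ} (h1 : D.Lo k < m) (h2 : m ≤ D.Lo (k + 1)) (h3 : D.Lo l < m)
    (h4 : m ≤ D.Lo (l + 1)) : k = l := by
  have a1 := D.Lo_strictMono.lt_iff_lt.1 (h1.trans_le h4)
  have a2 := D.Lo_strictMono.lt_iff_lt.1 (h3.trans_le h2)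
  omega

lemma block_unique' {k l : ℕ} {n : ℤ} (h1 : (D.Lo k : ℤ) < |n| ∧ |n| ≤ (D.Lo (k + 1) : ℤ))
    (h2 : (D.Lo l : ℤ) < |n| ∧ |n| ≤ (D.Lo (l + 1) : ℤ)) : k = l := by
  rw [Int.abs_eq_natAbs] at h1 h2
  apply D.block_unique (m := n.natAbs) <;> omega

/-- Global coefficients. -/
noncomputable def Ag (n : ℤ) : ℝ := ∑ k ∈ Finset.range n.natAbs, D.A k n
noncomputable def Bg (n : ℤ) : ℝ := ∑ k ∈ Finset.range n.natAbs, D.B k n

lemma lt_of_block {k : ℕ} {n : ℤ} (h : (D.Lo k : ℤ) < |n|) : k < n.natAbs := by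
  have := D.Lo_strictMono.id_le k
  simp only [id] at this
  rw [Int.abs_eq_natAbs] at h
  omega

lemma hasSum_A (n : ℤ) : HasSum (fun k => D.A k n) (D.Ag n) := by
  apply hasSum_sum_of_ne_finset_zero
  intro k hk
  by_contra h
  exact hk (Finset.mem_range.2 (D.lt_of_block (D.suppA k n h).1))

lemma hasSum_B (n : ℤ) : HasSum (fun k => D.B k n) (D.Bg n) := by
  apply hasSum_sum_of_ne_finset_zero
  intro k hk
  by_contra h
  exact hk (Finset.mem_range.2 (D.lt_of_block (D.suppB k n h).1))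

lemma Ag_eq {k : ℕ} {n : ℤ} (h : (D.Lo k : ℤ) < |n| ∧ |n| ≤ (D.Lo (k + 1) : ℤ)) :
    D.Ag n = D.A k n := by
  have h1 : HasSum (fun k => D.A k n) (D.A k n) := by
    apply hasSum_single
    intro l hl
    by_contra hcon
    exact hl (D.block_unique' (D.suppA l n hcon) h)
  exact (D.hasSum_A n).unique h1

lemma Bg_eq {k : ℕ} {n : ℤ} (h : (D.Lo k : ℤ) < |n| ∧ |n| ≤ (D.Lo (k + 1) : ℤ)) :
    D.Bg n = D.B k n := by
  have h1 : HasSum (fun k => D.B k n) (D.B k n) := by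
    apply hasSum_single
    intro l hl
    by_contra hcon
    exact hl (D.block_unique' (D.suppB l n hcon) h)
  exact (D.hasSum_B n).unique h1

lemma Ag_even (n : ℤ) : D.Ag (-n) = D.Ag n := by
  simp only [Ag, Int.natAbs_neg, D.evenA]

lemma Bg_even (n : ℤ) : D.Bg (-n) = D.Bg n := by
  simp only [Bg, Int.natAbs_neg, D.evenB]

lemma Ag_natAbs (n : ℤ) : D.Ag (n.natAbs : ℤ) = D.Ag n := by
  rcases Int.natAbs_eq n with h | h
  · rw [← h]
  · have : (n.natAbs : ℤ) = -n := by omega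
    rw [this, Ag_even]

lemma Bg_natAbs (n : ℤ) : D.Bg (n.natAbs : ℤ) = D.Bg n := by
  rcases Int.natAbs_eq n with h | h
  · rw [← h]
  · have : (n.natAbs : ℤ) = -n := by omega
    rw [this, Bg_even]

lemma Bg_ne_zero {n : ℤ} (h : D.Bg n ≠ 0) : ∃ k, D.B k n ≠ 0 := by
  by_contra hcon
  push Not at hcon
  apply h
  rw [Bg]
  exact Finset.sum_eq_zero fun k _ => hcon k

/-- partners -/
def P (j l : ℕ) : Prop := ∃ k, j ∈ D.J k ∧ l = 3 ^ (j + D.Lo (k + 1))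

variable {D}

lemma letter_block {k j : ℕ} (hj : j ∈ D.J k) : D.Lo (k + 1) < 3 ^ (j + D.Lo (k + 1)) ∧
    3 ^ (j + D.Lo (k + 1)) ≤ D.Lo (k + 2) := by
  refine ⟨?_, D.letM k j hj⟩
  have : j + D.Lo (k + 1) < 3 ^ (j + D.Lo (k + 1)) := Nat.lt_pow_self (by norm_num)
  omega

lemma P_right {j l l' : ℕ} (h : D.P j l) (h' : D.P j l') : l = l' := by
  obtain ⟨k, hj, rfl⟩ := h
  obtain ⟨k', hj', rfl⟩ := h'
  have := D.block_unique (D.J_mem k j hj).1 (D.J_mem k j hj).2 (D.J_mem k' j hj').1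
    (D.J_mem k' j hj').2
  rw [this]

lemma P_left {j j' l : ℕ} (h : D.P j l) (h' : D.P j' l) : j = j' := by
  obtain ⟨k, hj, rfl⟩ := h
  obtain ⟨k', hj', h1⟩ := h'
  have a1 := letter_block hj
  have a2 := letter_block hj'
  rw [← h1] at a2
  have := D.block_unique a1.1 a1.2 a2.1 a2.2
  have hk : k = k' := by omega
  subst hk
  have h2 := Nat.pow_right_injective (le_refl 2 |>.trans (by norm_num : 2 ≤ 3)) h1
  omega

lemma P_chain {j l l' : ℕ} (h : D.P j l) (h' : D.P l l') : False := by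
  obtain ⟨k, hj, h1⟩ := h
  obtain ⟨k', hl, -⟩ := h'
  have a1 := letter_block hj
  rw [← h1] at a1
  have a2 := D.J_mem k' l hl
  have h3 := D.block_unique a1.1 a1.2 a2.1 a2.2
  subst h3
  exact D.disj k l hl j hj h1

lemma P_pos {j l : ℕ} (h : D.P j l) : 0 < j ∧ 0 < l := by
  obtain ⟨k, hj, rfl⟩ := h
  have := D.J_mem k j hj
  exact ⟨by omega, by positivity⟩

open Classical in
/-- the involution on `ℕ` -/
noncomputable def tn (D : Data) (n : ℕ) : ℕ :=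
  if h : ∃ l, D.P n l then h.choose else if h : ∃ j, D.P j n then h.choose else n

lemma tn_of_left {j l : ℕ} (h : D.P j l) : D.tn j = l := by
  have hex : ∃ l, D.P j l := ⟨l, h⟩
  rw [tn, dif_pos hex]
  exact P_right hex.choose_spec h

lemma tn_of_right {j l : ℕ} (h : D.P j l) : D.tn l = j := by
  have hex : ∃ j, D.P j l := ⟨j, h⟩
  rw [tn, dif_neg, dif_pos hex]
  · exact P_left hex.choose_spec h
  · rintro ⟨l', hl'⟩
    exact P_chain h hl'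

lemma tn_of_none {n : ℕ} (h1 : ¬ ∃ l, D.P n l) (h2 : ¬ ∃ j, D.P j n) : D.tn n = n := by
  rw [tn, dif_neg h1, dif_neg h2]

lemma tn_cases (D : Data) (n : ℕ) :
    (∃ l, D.P n l) ∨ (∃ j, D.P j n) ∨ ((¬ ∃ l, D.P n l) ∧ ¬ ∃ j, D.P j n) := by
  tauto

lemma tn_tn (n : ℕ) : D.tn (D.tn n) = n := by
  rcases D.tn_cases n with ⟨l, h⟩ | ⟨j, h⟩ | ⟨h1, h2⟩
  · rw [tn_of_left h, tn_of_right h]
  · rw [tn_of_right h, tn_of_left h]
  · rw [tn_of_none h1 h2, tn_of_none h1 h2]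

lemma tn_zero : D.tn 0 = 0 := by
  apply tn_of_none
  · rintro ⟨l, h⟩; exact absurd (P_pos h).1 (lt_irrefl 0)
  · rintro ⟨l, h⟩; exact absurd (P_pos h).2 (lt_irrefl 0)

lemma tn_ne_zero {n : ℕ} (h : n ≠ 0) : D.tn n ≠ 0 := by
  intro h0
  apply h
  rw [← tn_tn (D := D) n, h0, tn_zero]

lemma P_A {j l : ℕ} (h : D.P j l) : D.Ag (l : ℤ) = D.Ag (j : ℤ) ∧ D.Bg (l : ℤ) = -D.Bg (j : ℤ) := by
  obtain ⟨k, hj, rfl⟩ := h
  have a1 := letter_block hj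
  have a2 := D.J_mem k j hj
  have b1 : (D.Lo (k + 1) : ℤ) < |((3 ^ (j + D.Lo (k + 1)) : ℕ) : ℤ)| ∧
      |((3 ^ (j + D.Lo (k + 1)) : ℕ) : ℤ)| ≤ (D.Lo (k + 2) : ℤ) := by
    rw [Nat.abs_cast]; exact_mod_cast a1
  have b2 : (D.Lo k : ℤ) < |(j : ℤ)| ∧ |(j : ℤ)| ≤ (D.Lo (k + 1) : ℤ) := by
    rw [Nat.abs_cast]; exact_mod_cast a2
  rw [D.Ag_eq b1, D.Ag_eq b2, D.Bg_eq b1, D.Bg_eq b2]
  have c1 := D.letA k j hj
  have c2 := D.letB k j hj
  push_cast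
  exact ⟨c1, c2⟩

lemma none_B {n : ℕ} (h1 : ¬ ∃ l, D.P n l) (h2 : ¬ ∃ j, D.P j n) : D.Bg (n : ℤ) = 0 := by
  by_contra hcon
  obtain ⟨k, hk⟩ := D.Bg_ne_zero hcon
  have h3 := D.suppB k n hk
  rw [Nat.abs_cast] at h3
  match k with
  | 0 =>
    have := D.cover0 n (by exact_mod_cast h3.1) (by exact_mod_cast h3.2)
    exact h1 ⟨_, 0, this, rfl⟩
  | k + 1 =>
    rcases D.cover k n (by exact_mod_cast h3.1) (by exact_mod_cast h3.2) hk with h | ⟨j, hj, h⟩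
    · exact h1 ⟨_, k + 1, h, rfl⟩
    · exact h2 ⟨j, k, hj, h⟩

lemma Ag_tn (n : ℕ) : D.Ag (D.tn n : ℤ) = D.Ag (n : ℤ) := by
  rcases D.tn_cases n with ⟨l, h⟩ | ⟨j, h⟩ | ⟨h1, h2⟩
  · rw [tn_of_left h, (P_A h).1]
  · rw [tn_of_right h, (P_A h).1]
  · rw [tn_of_none h1 h2]

lemma Bg_tn (n : ℕ) : D.Bg (D.tn n : ℤ) = -D.Bg (n : ℤ) := by
  rcases D.tn_cases n with ⟨l, h⟩ | ⟨j, h⟩ | ⟨h1, h2⟩
  · rw [tn_of_left h, (P_A h).2]
  · rw [tn_of_right h, (P_A h).2, neg_neg]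
  · rw [tn_of_none h1 h2, none_B h1 h2, neg_zero]

/-- the involution on `ℤ` -/
noncomputable def tau (D : Data) (n : ℤ) : ℤ := n.sign * (D.tn n.natAbs : ℤ)

lemma natAbs_tau (n : ℤ) : (D.tau n).natAbs = D.tn n.natAbs := by
  by_cases h : n = 0
  · subst h; simp [tau, tn_zero]
  · rw [tau, Int.natAbs_mul, Int.natAbs_sign_of_ne_zero h, one_mul, Int.natAbs_natCast]

lemma sign_tau (n : ℤ) : (D.tau n).sign = n.sign := by
  by_cases h : n = 0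
  · subst h; simp [tau]
  · rw [tau, Int.sign_mul, Int.sign_sign]
    have : D.tn n.natAbs ≠ 0 := tn_ne_zero (Int.natAbs_ne_zero.2 h)
    have h2 : ((D.tn n.natAbs : ℕ) : ℤ).sign = 1 := Int.sign_eq_one_of_pos (by omega)
    rw [h2, mul_one]

lemma tau_tau (n : ℤ) : D.tau (D.tau n) = n := by
  rw [tau, natAbs_tau, sign_tau, tn_tn, Int.sign_mul_natAbs]

lemma Ag_tau (n : ℤ) : D.Ag (D.tau n) = D.Ag n := by
  rw [← D.Ag_natAbs (D.tau n), natAbs_tau, Ag_tn, D.Ag_natAbs]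

lemma Bg_tau (n : ℤ) : D.Bg (D.tau n) = -D.Bg n := by
  rw [← D.Bg_natAbs (D.tau n), natAbs_tau, Bg_tn, D.Bg_natAbs]

end Data

end Pool.Agent.Helper577.Kahane
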