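import Pool.Agent.Helper577.Kahane.K6

open MeasureTheory AddCircle Finset Filter Topology
open scoped Convolution

namespace Pool.Agent.Helper577.Kahane

/-- normalised Haar measure on the circle -/
noncomputable abbrev HAAR : Measure UnitAddCircle := AddCircle.haarAddCircle

/-- `L¹` of the circle -/
noncomputable abbrev L1 := Lp ℂ 1 (AddCircle.haarAddCircle : Measure UnitAddCircle)

lemma integrable_L1 (h : L1) : Integrable (h : UnitAddCircle → ℂ) HAAR := L1.integrable_coeFn h

lemma norm_le_norm_apply (G : C(UnitAddCircle, ℂ)) (x : UnitAddCircle) : ‖G x‖ ≤ ‖G‖ :=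
  G.norm_coe_le_norm x

lemma integrable_mul (h : L1) (G : C(UnitAddCircle, ℂ)) :
    Integrable (fun x => G x * h x) HAAR :=
  (integrable_L1 h).bdd_mul G.continuous.aestronglyMeasurable
    (Eventually.of_forall fun x => norm_le_norm_apply G x)

/-- The functional `h ↦ ∫ G h`. -/
noncomputable def psi (G : C(UnitAddCircle, ℂ)) : L1 →L[ℂ] ℂ :=
  LinearMap.mkContinuous
    { toFun := fun h => ∫ x, G x * h x ∂HAAR
      map_add' := by
        intro h1 h2
        rw [← integral_add (integrable_mul h1 G) (integrable_mul h2 G)]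
        apply integral_congr_ae
        filter_upwards [Lp.coeFn_add h1 h2] with x hx
        rw [hx, Pi.add_apply, mul_add]
      map_smul' := by
        intro c h
        rw [RingHom.id_apply, smul_eq_mul, ← integral_const_mul]
        apply integral_congr_ae
        filter_upwards [Lp.coeFn_smul c h] with x hx
        rw [hx, Pi.smul_apply, smul_eq_mul]
        ring }
    ‖G‖ (by
      intro h
      simp only [LinearMap.coe_mk, AddHom.coe_mk]
      calc ‖∫ x, G x * h x ∂HAAR‖ ≤ ∫ x, ‖G x * h x‖ ∂HAAR := norm_integral_le_integral_norm _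
        _ ≤ ∫ x, ‖G‖ * ‖h x‖ ∂HAAR := by
            apply integral_mono (integrable_mul h G).norm ((integrable_L1 h).norm.const_mul _)
            intro x
            simp only [norm_mul]
            gcongr
            exact norm_le_norm_apply G x
        _ = ‖G‖ * ‖h‖ := by rw [integral_const_mul, L1.norm_eq_integral_norm])

lemma psi_apply (G : C(UnitAddCircle, ℂ)) (h : L1) : psi G h = ∫ x, G x * h x ∂HAAR := rfl

lemma norm_psi_le (G : C(UnitAddCircle, ℂ)) : ‖psi G‖ ≤ ‖G‖ :=
  LinearMap.mkContinuous_norm_le _ (norm_nonneg _) _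

/-- Fourier coefficient functional -/
noncomputable def cl (n : ℤ) : L1 →L[ℂ] ℂ := psi (fourier (-n))

lemma cl_apply (n : ℤ) (h : L1) : cl n h = fourierCoeff (h : UnitAddCircle → ℂ) n := by
  rw [cl, psi_apply, fourierCoeff]
  rfl

lemma norm_cl_le (n : ℤ) : ‖cl n‖ ≤ 1 := by
  refine (norm_psi_le _).trans (le_of_eq ?_)
  have : Fact ((0 : ℝ) < 1) := ⟨one_pos⟩
  exact fourier_norm (-n)

/-- continuous functions as elements of `L¹` -/
noncomputable def toL (F : C(UnitAddCircle, ℂ)) : L1 := ContinuousMap.toLp (E := ℂ) 1 HAAR ℂ F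

lemma toL_ae (F : C(UnitAddCircle, ℂ)) : (toL F : UnitAddCircle → ℂ) =ᵐ[HAAR] F :=
  ContinuousMap.coeFn_toLp (E := ℂ) (p := 1) (𝕜 := ℂ) HAAR F

lemma norm_toL (F : C(UnitAddCircle, ℂ)) : ‖toL F‖ = ∫ x, ‖F x‖ ∂HAAR := by
  rw [L1.norm_eq_integral_norm]
  apply integral_congr_ae
  filter_upwards [toL_ae F] with x hx
  rw [hx]

lemma psi_toL (G F : C(UnitAddCircle, ℂ)) : psi G (toL F) = ∫ x, G x * F x ∂HAAR := by
  rw [psi_apply]
  apply integral_congr_ae
  filter_upwards [toL_ae F] with x hx
  rw [hx]

lemma psi_trig (K : ℕ) (B : ℤ → ℝ) (hB : ∀ n, B (-n) = B n) (h : L1) :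
    psi (trig K (fun n => (B n : ℂ))) h =
      ∑ n ∈ Finset.Icc (-(K : ℤ)) K, (B n : ℂ) * cl n h := by
  have h1 : psi (trig K (fun n => (B n : ℂ))) h =
      ∑ n ∈ Finset.Icc (-(K : ℤ)) K, (B n : ℂ) * cl (-n) h := by
    rw [psi_apply]
    simp only [trig_apply, Finset.sum_mul]
    rw [integral_finsetSum]
    · apply Finset.sum_congr rfl
      intro n _
      rw [cl, neg_neg, psi_apply, ← integral_const_mul]
      apply integral_congr_ae
      exact Eventually.of_forall fun x => by simp only; ring
    · intro n _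
      have := (integrable_mul h (fourier n)).const_mul (B n : ℂ)
      refine this.congr (Eventually.of_forall fun x => ?_)
      simp only; ring
  rw [h1]
  apply Finset.sum_bij (fun n _ => -n)
  · intro n hn; rw [Finset.mem_Icc] at *; constructor <;> linarith [hn.1, hn.2]
  · intro a _ b _ h; exact neg_injective h
  · intro n hn; exact ⟨-n, by rw [Finset.mem_Icc] at *; constructor <;> linarith [hn.1, hn.2],
      neg_neg n⟩
  · intro n _; rw [hB]

lemma cl_toL_trig (K : ℕ) (A : ℤ → ℝ) (hA : ∀ n, A n ≠ 0 → |n| ≤ (K : ℤ)) (n : ℤ) :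
    cl n (toL (trig K (fun n => (A n : ℂ)))) = A n := by
  rw [cl, psi_toL]
  simp only [trig_apply, Finset.mul_sum]
  rw [integral_finsetSum]
  · have h1 : ∀ m ∈ Finset.Icc (-(K : ℤ)) K,
        ∫ x : UnitAddCircle, fourier (-n) x * ((A m : ℂ) * fourier m x) ∂HAAR =
          if m = n then (A n : ℂ) else 0 := by
      intro m _
      have h2 : ∀ x : UnitAddCircle, fourier (-n) x * ((A m : ℂ) * fourier m x) =
          (A m : ℂ) * fourier (m - n) x := by
        intro x
        rw [sub_eq_add_neg, fourier_add]; ring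
      simp_rw [h2]
      rw [integral_const_mul, integral_fourier]
      by_cases h : m = n
      · subst h; simp
      · rw [if_neg h, if_neg (sub_ne_zero.2 h), mul_zero]
    rw [Finset.sum_congr rfl h1, Finset.sum_ite_eq']
    by_cases h : n ∈ Finset.Icc (-(K : ℤ)) K
    · rw [if_pos h]
    · rw [if_neg h]
      by_contra hcon
      apply h
      rw [Finset.mem_Icc, ← abs_le]
      apply hA
      intro h0
      apply hcon
      rw [h0]; simp
  · intro m _
    have hc : Continuous fun x : UnitAddCircle => fourier (-n) x * ((A m : ℂ) * fourier m x) := by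
      fun_prop
    exact hc.integrable_of_hasCompactSupport (HasCompactSupport.of_compactSpace _)

/-! ### Convolution -/

lemma exists_conv (f g : L1) : ∃ h : L1, ∀ n, fourierCoeff (h : UnitAddCircle → ℂ) n =
    fourierCoeff (f : UnitAddCircle → ℂ) n * fourierCoeff (g : UnitAddCircle → ℂ) n := by
  have hf := integrable_L1 f
  have hg := integrable_L1 g
  have hint : Integrable (f ⋆[ContinuousLinearMap.mul ℂ ℂ, HAAR] g) HAAR :=
    hf.integrable_convolution (ContinuousLinearMap.mul ℂ ℂ) hg
  refine ⟨hint.toL1 _, fun n => ?_⟩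
  have h1 : fourierCoeff ((hint.toL1 _ : L1) : UnitAddCircle → ℂ) n =
      fourierCoeff (f ⋆[ContinuousLinearMap.mul ℂ ℂ, HAAR] g) n :=
    congrFun (fourierCoeff_congr_ae hint.coeFn_toL1) n
  rw [h1]
  have h2 := integral_convolution (ContinuousLinearMap.mul ℂ ℂ)
    (f := fun x => fourier (-n) x * f x) (g := fun x => fourier (-n) x * g x) (ν := HAAR) (μ := HAAR)
    (integrable_mul f (fourier (-n))) (integrable_mul g (fourier (-n)))
  have h3 : ∀ h : UnitAddCircle → ℂ, fourierCoeff h n = ∫ x, fourier (-n) x * h x ∂HAAR :=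
    fun h => rfl
  rw [h3, h3, h3]
  rw [ContinuousLinearMap.mul_apply'] at h2
  rw [← h2]
  apply integral_congr_ae
  refine Eventually.of_forall fun x => ?_
  simp only [convolution_def, ContinuousLinearMap.mul_apply']
  rw [← integral_const_mul]
  apply integral_congr_ae
  refine Eventually.of_forall fun t => ?_
  simp only
  have h4 : fourier (-n) x = fourier (-n) t * fourier (-n) (x - t) := by
    have : x = t + (x - t) := by abel
    conv_lhs => rw [this]
    simp only [fourier_apply, smul_add, toCircle_add, Circle.coe_mul]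
  rw [h4]; ring

/-! ### Elements with coefficients 0 or 1 -/

lemma span_finite {p : L1} (hp : p ∈ Submodule.span ℂ (Set.range (@fourierLp 1 _ 1 _))) :
    {n : ℤ | cl n p ≠ 0}.Finite := by
  induction hp using Submodule.span_induction with
  | mem x hx =>
    obtain ⟨m, rfl⟩ := hx
    refine (Set.finite_singleton m).subset ?_
    intro n hn
    rw [Set.mem_ofPred_eq] at hn
    rw [Set.mem_singleton_iff]
    by_contra h
    apply hn
    have : (fourierLp 1 m : L1) = toL (fourier m) := rfl
    rw [this, cl, psi_toL]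
    have h2 : ∀ x : UnitAddCircle, fourier (-n) x * fourier m x = fourier (m - n) x := by
      intro x; rw [sub_eq_add_neg, fourier_add]; ring
    simp_rw [h2]
    rw [integral_fourier, if_neg (sub_ne_zero.2 (Ne.symm h))]
  | zero => simp
  | add x y _ _ hx hy =>
    refine (hx.union hy).subset ?_
    intro n hn
    rw [Set.mem_ofPred_eq, map_add] at hn
    by_contra hcon
    rw [Set.mem_union, not_or, Set.mem_ofPred_eq, Set.mem_ofPred_eq, not_not, not_not] at hcon
    exact hn (by rw [hcon.1, hcon.2, add_zero])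
  | smul a x _ hx =>
    refine hx.subset ?_
    intro n hn
    rw [Set.mem_ofPred_eq, map_smul] at hn
    exact right_ne_zero_of_mul hn

lemma idem_finite {e : L1} (he : ∀ n, cl n e * cl n e = cl n e) : {n : ℤ | cl n e ≠ 0}.Finite := by
  have : Fact ((0 : ℝ) < 1) := ⟨one_pos⟩
  have h1 : e ∈ (Submodule.span ℂ (Set.range (@fourierLp 1 _ 1 _))).topologicalClosure := by
    rw [span_fourierLp_closure_eq_top (by norm_num : (1 : ENNReal) ≠ ⊤)]
    exact Submodule.mem_top
  have h2 : e ∈ closure ((Submodule.span ℂ (Set.range (@fourierLp 1 _ 1 _)) : Submodule ℂ L1) :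
      Set L1) := h1
  obtain ⟨p, hp, hd⟩ := Metric.mem_closure_iff.1 h2 1 one_pos
  refine (span_finite hp).subset ?_
  intro n hn
  rw [Set.mem_ofPred_eq] at *
  intro hpn
  have h3 : cl n e = 1 := by
    have := he n
    exact mul_left_cancel₀ hn (by rw [this, mul_one])
  have h4 : ‖cl n (e - p)‖ ≤ ‖e - p‖ := by
    calc ‖cl n (e - p)‖ ≤ ‖cl n‖ * ‖e - p‖ := (cl n).le_opNorm _
      _ ≤ 1 * ‖e - p‖ := by gcongr; exact norm_cl_le n
      _ = _ := one_mul _
  rw [map_sub, hpn, sub_zero, h3, norm_one] at h4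
  rw [dist_eq_norm] at hd
  linarith

end Pool.Agent.Helper577.Kahane
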