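import Pool.Agent.Helper577.Kahane.K7

open MeasureTheory AddCircle Finset Filter Topology

namespace Pool.Agent.Helper577.Kahane

/-- blocks of `f` -/
noncomputable def F (D : Data) (k : ℕ) : C(UnitAddCircle, ℂ) :=
  trig (D.Lo (k + 1)) (fun n => (D.A k n : ℂ))

/-- blocks of `g` -/
noncomputable def G (D : Data) (k : ℕ) : C(UnitAddCircle, ℂ) :=
  trig (D.Lo (k + 1)) (fun n => (D.B k n : ℂ))

variable (D : Data)

lemma norm_F (k : ℕ) : ‖toL (F D (k + 1))‖ ≤ 2 * (1 / 2) ^ k := by
  rw [norm_toL]; exact D.normA k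

lemma norm_G (k : ℕ) : ‖G D (k + 1)‖ ≤ 2 * (1 / 2) ^ k :=
  (ContinuousMap.norm_le _ (by positivity)).2 (D.normB k)

lemma summable_geo : Summable (fun k : ℕ => 2 * (1 / 2 : ℝ) ^ k) :=
  (summable_geometric_of_lt_one (by norm_num) (by norm_num)).mul_left 2

lemma summable_F : Summable (fun k => toL (F D k)) := by
  rw [← summable_nat_add_iff 1]
  exact Summable.of_norm_bounded summable_geo (norm_F D)

lemma norm_psiG (k : ℕ) : ‖psi (G D (k + 1))‖ ≤ 2 * (1 / 2) ^ k :=
  (norm_psi_le _).trans (norm_G D k)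

lemma summable_G : Summable (fun k => psi (G D k)) := by
  rw [← summable_nat_add_iff 1]
  exact Summable.of_norm_bounded summable_geo (norm_psiG D)

/-- the function `f` -/
noncomputable def f : L1 := ∑' k, toL (F D k)

/-- the functional -/
noncomputable def Psi : L1 →L[ℂ] ℂ := ∑' k, psi (G D k)

lemma hasSum_Psi (h : L1) : HasSum (fun k => psi (G D k) h) (Psi D h) :=
  ((ContinuousLinearMap.apply ℂ ℂ h).hasSum (summable_G D).hasSum)

lemma cl_F (k : ℕ) (n : ℤ) : cl n (toL (F D k)) = D.A k n :=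
  cl_toL_trig _ _ (fun n hn => (D.suppA k n hn).2) n

lemma cl_f (n : ℤ) : cl n (f D) = D.Ag n := by
  have h1 : HasSum (fun k => cl n (toL (F D k))) (cl n (f D)) :=
    (cl n).hasSum (summable_F D).hasSum
  simp only [cl_F] at h1
  exact h1.unique (Complex.hasSum_ofReal.2 (D.hasSum_A n))

lemma psi_G (k : ℕ) (h : L1) : psi (G D k) h =
    ∑ n ∈ Finset.Icc (-(D.Lo (k + 1) : ℤ)) (D.Lo (k + 1)), (D.B k n : ℂ) * cl n h :=
  psi_trig _ _ (D.evenB k) h

lemma psi_G_f (k : ℕ) : psi (G D k) (f D) =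
    ∑ n ∈ Finset.Icc (-(D.Lo (k + 1) : ℤ)) (D.Lo (k + 1)), (D.B k n : ℂ) * D.A k n := by
  rw [psi_G]
  apply Finset.sum_congr rfl
  intro n _
  rw [cl_f]
  by_cases h : D.B k n = 0
  · simp [h]
  · rw [D.Ag_eq (D.suppB k n h)]

lemma psi_G_f' (k : ℕ) : psi (G D k) (f D) = psi (G D k) (toL (F D k)) := by
  rw [psi_G_f, psi_G]
  simp only [cl_F]

lemma psi_G_zero : psi (G D 0) (f D) = 8 := by
  rw [psi_G_f]
  have h := D.init_sum
  have h2 : ((∑ n ∈ Finset.Icc (-(D.Lo 1 : ℤ)) (D.Lo 1), D.A 0 n * D.B 0 n : ℝ) : ℂ) = 8 := by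
    rw [h]; norm_num
  rw [← h2]
  push_cast
  apply Finset.sum_congr rfl
  intro n _
  ring

lemma norm_psi_G_f (k : ℕ) : ‖psi (G D (k + 1)) (f D)‖ ≤ 4 * (1 / 4) ^ k := by
  rw [psi_G_f']
  calc ‖psi (G D (k + 1)) (toL (F D (k + 1)))‖ ≤ ‖psi (G D (k + 1))‖ * ‖toL (F D (k + 1))‖ :=
        (psi _).le_opNorm _
    _ ≤ (2 * (1 / 2) ^ k) * (2 * (1 / 2) ^ k) := by
        gcongr
        · exact norm_psiG D k
        · exact norm_F D k
    _ = 4 * (1 / 4) ^ k := by
        have : (1 / 4 : ℝ) ^ k = (1 / 2) ^ k * (1 / 2) ^ k := by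
          rw [← mul_pow]; norm_num
        rw [this]; ring

lemma Psi_f_ne : Psi D (f D) ≠ 0 := by
  have h1 := hasSum_Psi D (f D)
  have h2 : HasSum (fun k => psi (G D (k + 1)) (f D)) (Psi D (f D) - 8) := by
    have := (hasSum_nat_add_iff' 1).2 h1
    simpa [psi_G_zero] using this
  have hg : HasSum (fun k : ℕ => 4 * (1 / 4 : ℝ) ^ k) (4 * (1 - 1 / 4)⁻¹) :=
    (hasSum_geometric_of_lt_one (by norm_num) (by norm_num)).mul_left 4
  have h3 : ‖Psi D (f D) - 8‖ ≤ 4 * (1 - 1 / 4)⁻¹ := by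
    rw [← h2.tsum_eq]
    exact tsum_of_norm_bounded hg (norm_psi_G_f D)
  intro h0
  rw [h0] at h3
  norm_num at h3

/-- The algebra. -/
noncomputable def Alg : Submodule ℂ L1 where
  carrier := {h | ∀ n, cl (D.tau n) h = cl n h}
  add_mem' := by
    intro a b ha hb n
    rw [map_add, map_add, ha n, hb n]
  zero_mem' := by intro n; rw [map_zero, map_zero]
  smul_mem' := by
    intro c a ha n
    rw [map_smul, map_smul, ha n]

lemma mem_Alg {h : L1} : h ∈ Alg D ↔ ∀ n, cl (D.tau n) h = cl n h := Iff.rfl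

lemma isClosed_Alg : IsClosed (Alg D : Set L1) := by
  have : (Alg D : Set L1) = ⋂ n, {h | cl (D.tau n) h = cl n h} := by
    ext h; simp [mem_Alg]
  rw [this]
  exact isClosed_iInter fun n => isClosed_eq (cl _).continuous (cl _).continuous

lemma f_mem : f D ∈ Alg D := by
  rw [mem_Alg]
  intro n
  rw [cl_f, cl_f, Data.Ag_tau]

lemma Psi_idem {e : L1} (he : e ∈ Alg D) (hi : ∀ n, cl n e * cl n e = cl n e) : Psi D e = 0 := by
  classical
  have hfin := idem_finite hi
  set E : Finset ℤ := hfin.toFinset with hE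
  have hmem : ∀ n, n ∈ E ↔ cl n e ≠ 0 := by intro n; simp [hE]
  have h1 : ∀ k, psi (G D k) e = ∑ n ∈ E, (D.B k n : ℂ) * cl n e := by
    intro k
    rw [psi_G]
    have a1 : ∑ n ∈ Finset.Icc (-(D.Lo (k + 1) : ℤ)) (D.Lo (k + 1)), (D.B k n : ℂ) * cl n e =
        ∑ n ∈ Finset.Icc (-(D.Lo (k + 1) : ℤ)) (D.Lo (k + 1)) ∪ E, (D.B k n : ℂ) * cl n e := by
      apply Finset.sum_subset Finset.subset_union_left
      intro n _ hn
      have : D.B k n = 0 := by
        by_contra h
        apply hn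
        rw [Finset.mem_Icc, ← abs_le]
        exact (D.suppB k n h).2
      rw [this]; simp
    have a2 : ∑ n ∈ E, (D.B k n : ℂ) * cl n e =
        ∑ n ∈ Finset.Icc (-(D.Lo (k + 1) : ℤ)) (D.Lo (k + 1)) ∪ E, (D.B k n : ℂ) * cl n e := by
      apply Finset.sum_subset Finset.subset_union_right
      intro n _ hn
      have : cl n e = 0 := by
        by_contra h
        exact hn ((hmem n).2 h)
      rw [this]; simp
    rw [a1, a2]
  have h2 : HasSum (fun k => psi (G D k) e) (∑ n ∈ E, (D.Bg n : ℂ) * cl n e) := by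
    simp only [h1]
    apply hasSum_sum
    intro n _
    exact (Complex.hasSum_ofReal.2 (D.hasSum_B n)).mul_right _
  rw [(hasSum_Psi D e).unique h2]
  apply Finset.sum_involution (fun n _ => D.tau n)
  · intro n _
    rw [Data.Bg_tau, he n]
    push_cast
    ring
  · intro n _ hne heq
    apply hne
    have := Data.Bg_tau (D := D) n
    rw [heq] at this
    have h0 : D.Bg n = 0 := by linarith
    rw [h0]; simp
  · intro n hn
    rw [hmem] at *
    rw [he n]; exact hn
  · intro n _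
    exact Data.tau_tau n

lemma exists_sep (n : ℤ) : ∃ e ∈ Alg D, cl n e = 1 ∧ ∀ m, m ≠ n → m ≠ D.tau n → cl m e = 0 := by
  classical
  set K : ℕ := n.natAbs + (D.tau n).natAbs with hK
  set C : ℤ → ℝ := fun m => if m = n ∨ m = D.tau n then 1 else 0 with hC
  have h1 : ∀ m, cl m (toL (trig K (fun m => (C m : ℂ)))) = C m := by
    apply cl_toL_trig
    intro m hm
    have : m = n ∨ m = D.tau n := by
      by_contra h
      apply hm
      simp only [hC, if_neg h]
    rcases this with h | h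
    · rw [h, Int.abs_eq_natAbs, hK]; omega
    · rw [h, Int.abs_eq_natAbs, hK]; omega
  refine ⟨toL (trig K (fun m => (C m : ℂ))), ?_, ?_, ?_⟩
  · rw [mem_Alg]
    intro m
    rw [h1, h1]
    have : (D.tau m = n ∨ D.tau m = D.tau n) ↔ (m = n ∨ m = D.tau n) := by
      constructor
      · rintro (h | h)
        · right; rw [← h, Data.tau_tau]
        · left; rw [← Data.tau_tau (D := D) m, h, Data.tau_tau]
      · rintro (h | h)
        · right; rw [h]
        · left; rw [h, Data.tau_tau]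
    simp only [hC, this]
  · rw [h1]; simp [hC]
  · intro m hm hm'
    rw [h1]
    simp [hC, hm, hm']

theorem main :
    ∃ A : Submodule ℂ (MeasureTheory.Lp ℂ 1
        (AddCircle.haarAddCircle : MeasureTheory.Measure UnitAddCircle)),
      IsClosed (A : Set (MeasureTheory.Lp ℂ 1
        (AddCircle.haarAddCircle : MeasureTheory.Measure UnitAddCircle))) ∧
      (∀ f ∈ A, ∀ g ∈ A, ∃ h ∈ A, ∀ n : ℤ,
        fourierCoeff (h : UnitAddCircle → ℂ) n =
          fourierCoeff (f : UnitAddCircle → ℂ) n * fourierCoeff (g : UnitAddCircle → ℂ) n) ∧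
      ¬ (A ≤ (Submodule.span ℂ
          {e : MeasureTheory.Lp ℂ 1
              (AddCircle.haarAddCircle : MeasureTheory.Measure UnitAddCircle) |
            e ∈ A ∧ ∀ n : ℤ,
              fourierCoeff (e : UnitAddCircle → ℂ) n * fourierCoeff (e : UnitAddCircle → ℂ) n =
                fourierCoeff (e : UnitAddCircle → ℂ) n}).topologicalClosure) ∧
      ∀ n : ℤ,
        {m : ℤ | ∀ f ∈ A, fourierCoeff (f : UnitAddCircle → ℂ) m =
            fourierCoeff (f : UnitAddCircle → ℂ) n}.Finite →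
        {m : ℤ | ∀ f ∈ A, fourierCoeff (f : UnitAddCircle → ℂ) m =
            fourierCoeff (f : UnitAddCircle → ℂ) n}.ncard ≤ 2 := by
  refine ⟨Alg data, isClosed_Alg data, ?_, ?_, ?_⟩
  · intro f hf g hg
    obtain ⟨h, hh⟩ := exists_conv f g
    refine ⟨h, ?_, hh⟩
    rw [mem_Alg] at *
    intro n
    rw [cl_apply, cl_apply, hh, hh, ← cl_apply, ← cl_apply, ← cl_apply, ← cl_apply, hf n, hg n]
  · intro hle
    have h1 := hle (f_mem data)
    have h2 : (Submodule.span ℂ
          {e : L1 | e ∈ Alg data ∧ ∀ n : ℤ,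
              fourierCoeff (e : UnitAddCircle → ℂ) n * fourierCoeff (e : UnitAddCircle → ℂ) n =
                fourierCoeff (e : UnitAddCircle → ℂ) n}).topologicalClosure ≤
        LinearMap.ker (Psi data).toLinearMap := by
      apply Submodule.topologicalClosure_minimal
      · rw [Submodule.span_le]
        intro e he
        rw [SetLike.mem_coe, LinearMap.mem_ker]
        apply Psi_idem data he.1
        intro n
        rw [cl_apply]
        exact he.2 n
      · exact (Psi data).isClosed_ker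
    exact Psi_f_ne data (LinearMap.mem_ker.1 (h2 h1))
  · intro n _
    have hsub : {m : ℤ | ∀ f ∈ Alg data, fourierCoeff (f : UnitAddCircle → ℂ) m =
            fourierCoeff (f : UnitAddCircle → ℂ) n} ⊆ {n, data.tau n} := by
      intro m hm
      obtain ⟨e, he, he1, he2⟩ := exists_sep data n
      by_contra hcon
      rw [Set.mem_insert_iff, Set.mem_singleton_iff, not_or] at hcon
      have h1 := hm e he
      rw [← cl_apply, ← cl_apply, he1, he2 m hcon.1 hcon.2] at h1
      exact zero_ne_one h1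
    calc _ ≤ ({n, data.tau n} : Set ℤ).ncard := Set.ncard_le_ncard hsub (Set.toFinite _)
      _ ≤ ({data.tau n} : Set ℤ).ncard + 1 := Set.ncard_insert_le n _
      _ ≤ 2 := by rw [Set.ncard_singleton]

end Pool.Agent.Helper577.Kahane
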